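import Mathlib
import Pool.Agent.H29.CoCons

set_option autoImplicit false

namespace Pool.Agent.Results.MP_8dcd4d_gt.Counter
open Set Pool.Agent.H29.CoCons

/-- Nonempty compact saturated sets. -/
def Smyth (T : Type) [TopologicalSpace T] : Type :=
  {K : Set T // K.Nonempty ∧ IsCompact K ∧ K = ⋂₀ {U | IsOpen U ∧ K ⊆ U}}

/-- The upper Vietoris topology. -/
instance upperVietoris (T : Type) [TopologicalSpace T] : TopologicalSpace (Smyth T) :=
  TopologicalSpace.generateFrom {S | ∃ U : Set T, IsOpen U ∧ S = {K : Smyth T | K.1 ⊆ U}}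

def up (A : Set X) : Set X := ⋂₀ {U | IsOpen U ∧ A ⊆ U}

theorem sub_up (A : Set X) : A ⊆ up A := fun _ hx _ hU => hU.2 hx

theorem up_sub {A U : Set X} (hU : IsOpen U) : up A ⊆ U ↔ A ⊆ U :=
  ⟨(sub_up A).trans, fun h _ hx => hx U ⟨hU, h⟩⟩

def mk (A : Set X) (h : A.Finite) (hne : A.Nonempty) : Smyth X :=
  ⟨up A, hne.mono (sub_up A), by
    refine isCompact_of_finite_subcover fun {ι} U hU hc => ?_
    obtain ⟨t, ht⟩ := h.isCompact.elim_finite_subcover U hU ((sub_up A).trans hc)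
    exact ⟨t, (up_sub (isOpen_biUnion fun i _ => hU i)).2 ht⟩,
    Subset.antisymm (fun x hx U hU => hU.2 hx)
      fun x hx U hU => hx U ⟨hU.1, (up_sub hU.1).2 hU.2⟩⟩

theorem box {U : Set X} (hU : IsOpen U) : IsOpen {K : Smyth X | K.1 ⊆ U} :=
  TopologicalSpace.isOpen_generateFrom_of_mem ⟨U, hU, rfl⟩

def i (g : Y) : Smyth X := mk {X.y g, X.m} (toFinite _) (insert_nonempty _ _)
def j (p : Z) : Smyth X := mk {X.z p} (toFinite _) (singleton_nonempty _)

theorem hi {U : Set X} (hU : IsOpen U) (g : Y) : (i g).1 ⊆ U ↔ X.y g ∈ U ∧ X.m ∈ U :=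
  (up_sub hU).trans (by simp [insert_subset_iff])

theorem hj {U : Set X} (hU : IsOpen U) (p : Z) : (j p).1 ⊆ U ↔ X.z p ∈ U :=
  (up_sub hU).trans singleton_subset_iff

theorem ci : Continuous i := by
  refine continuous_generateFrom_iff.2 ?_
  rintro _ ⟨U, hU, rfl⟩
  have : i ⁻¹' {K : Smyth X | K.1 ⊆ U} = X.y ⁻¹' U ∩ {_g | X.m ∈ U} := by
    ext g; exact hi hU g
  rw [this]
  exact hU.1.inter isOpen_const

theorem cj : Continuous j := by
  refine continuous_generateFrom_iff.2 ?_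
  rintro _ ⟨U, hU, rfl⟩
  have : j ⁻¹' {K : Smyth X | K.1 ⊆ U} = X.z ⁻¹' U := by
    ext g; exact hj hU g
  rw [this]
  exact hU.2.1

theorem strong (K : Smyth X) {U : Set X} (hU : IsOpen U) (h : K.1 ⊆ U) :
    ∃ E : Set X, E.Finite ∧ E ⊆ U ∧ ∀ V, IsOpen V → E ⊆ V → K.1 ⊆ V := by
  obtain ⟨E, h1, h2, h3⟩ := pfX {V | IsOpen V ∧ K.1 ⊆ V} ⟨fun _ h => h.1,
    fun _ V a hV b => ⟨hV, a.2.trans b⟩, by
      intro D hne ho hd hD
      have : Nonempty D := hne.to_subtype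
      obtain ⟨W, hW⟩ := K.2.2.1.elim_directed_cover (fun W : D => W.1) (fun W => ho W.1 W.2)
        (by rw [← sUnion_eq_iUnion]; exact hD.2) hd.directed_val
      exact ⟨W.1, W.2, ho _ W.2, hW⟩⟩ U ⟨hU, h⟩
  exact ⟨E, h1, h2, fun V hV a => (h3 V hV a).2⟩

theorem not_co : ¬ CoConsonant (Smyth X) := by
  have o1 := open_y isOpen_univ (M := {X.m}) Subset.rfl
  have o2 := open_z isOpen_univ (M := ∅) (empty_subset _)
  refine not_cc i j ci cj _ ((box o1).union (box o2))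
    (fun g => Or.inl ((hi o1 g).2 ⟨by simp, by simp⟩))
    (fun p => Or.inr ((hj o2 p).2 (by simp))) ?_
  rintro K (hK | hK)
  · obtain ⟨E, h1, h2, h3⟩ := strong K o1 hK
    refine ⟨X.y ⁻¹' E, ∅, h1.preimage fun _ _ _ _ => X.y.inj, finite_empty, fun G H hG _ a _ => ?_⟩
    have o := open_y hG (M := {X.m}) Subset.rfl
    refine ⟨_, box o, h3 _ o fun x hx => ?_, fun g hg => ?_, fun p hp => ?_⟩
    · rcases h2 hx with ⟨g, -, rfl⟩ | h
      · exact Or.inl ⟨g, a hx, rfl⟩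
      · exact Or.inr h
    · simpa using ((hi o g).1 hg).1
    · simpa using (hj o p).1 hp
  · obtain ⟨E, h1, h2, h3⟩ := strong K o2 hK
    refine ⟨∅, X.z ⁻¹' E, finite_empty, h1.preimage fun _ _ _ _ => X.z.inj, fun G H _ hH _ a => ?_⟩
    have o := open_z hH (M := ∅) (empty_subset _)
    refine ⟨_, box o, h3 _ o fun x hx => ?_, fun g hg => ?_, fun p hp => ?_⟩
    · rcases h2 hx with ⟨g, -, rfl⟩ | h
      · exact Or.inl ⟨g, a hx, rfl⟩
      · exact Or.inr h
    · simpa using ((hi o g).1 hg).2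
    · simpa using (hj o p).1 hp

theorem result : ∃ (T : Type) (_ : TopologicalSpace T),
    T0Space T ∧ CoConsonant T ∧ ¬ CoConsonant (Smyth T) :=
  ⟨X, inferInstance, inferInstance, cc_iff.2 pfX, not_co⟩

end Pool.Agent.Results.MP_8dcd4d_gt.Counter
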